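import Pool.Agent.H48.SM.Defs
import Pool.Agent.H48.SL.M9

/-!
# MP_75199a_ag: weak rationality of stringy motives fails as posed

For every `s` there is a finite group `G ⊂ GL_d(F_2)` without pseudo-reflections such that the stringy
motive of `A^d/G` converges and is not a finite sum of terms
`ξ / ((L^{a_1} - 1) ... (L^{a_s} - 1))`, `ξ ∈ K_0(Var)[L^{-1}][L^{1/r}]`, `a_l ∈ (1/r) Z_{>0}`, `r = |G|`.
The case `s = 1`, `ξ_i = {Z_i}` is the negation of Q1.
-/

set_option autoImplicit false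

namespace Pool.Agent.Results.MP_75199a_ag.NoBoundedDenominators

theorem result (β : Prop) (s : ℕ) :
    ∃ (ι : Type) (_ : Fintype ι) (_ : DecidableEq ι)
      (G : Subgroup (Matrix.GeneralLinearGroup ι (ZMod 2))) (_ : Finite G),
      (∀ g ∈ G, (g.val - 1).rank ≠ 1) ∧
      (∃ u : ℕ → H48SM.Mot (ZMod 2) (Nat.card G) β, H48SM.IsStringy G u ∧ H48SM.Conv u) ∧
      ∀ u : ℕ → H48SM.Mot (ZMod 2) (Nat.card G) β, H48SM.IsStringy G u →
        ¬ ∃ (n : ℕ) (ξ : Fin n → H48SM.Mot (ZMod 2) (Nat.card G) β) (a : Fin n → Fin s → ℕ),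
          (∀ i l, 0 < a i l) ∧ H48SM.SameLimit u (H48SM.fracSum s n ξ a) :=
  H48SM.final β s

end Pool.Agent.Results.MP_75199a_ag.NoBoundedDenominators
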